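import Pool.Agent.MP_bd94e8_al.H89.Spec

/-!
The cocycle lemma.
-/

set_option autoImplicit false
set_option linter.unusedSectionVars false

namespace Pool.Agent.MP_bd94e8_al.H89

namespace FreeA

variable {Pt ι Ω : Type} {vt : Pt → ι} {pk : Pt → Ω} {arr : Pt → Pt → Prop}
  {tie : Pt × Pt → Pt × Pt → Prop}

/-- A closed walk of length two contradicts the absence of long walks. -/
theorem walk2 {inc : Pt → Pt → Prop} {L : ℕ} (hN : NoPath vt inc L) (e0 x0 e1 x1 : Pt)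
    (h0 : vt e0 = vt x0) (n0 : e0 ≠ x0) (i0 : inc x0 e1)
    (h1 : vt e1 = vt x1) (n1 : e1 ≠ x1) (i1 : inc x1 e0) : False := by
  refine hN (fun m => if m % 2 = 0 then e0 else e1) (fun m => if m % 2 = 0 then x0 else x1) ?_
  intro m _
  rcases Nat.mod_two_eq_zero_or_one m with h | h
  · have h' : (m + 1) % 2 = 1 := by omega
    simp [h, h', h0, n0, i0]
  · have h' : (m + 1) % 2 = 0 := by omega
    simp [h, h', h1, n1, i1]

/-- A closed walk of length three contradicts the absence of long walks. -/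
theorem walk3 {inc : Pt → Pt → Prop} {L : ℕ} (hN : NoPath vt inc L) (e0 x0 e1 x1 e2 x2 : Pt)
    (h0 : vt e0 = vt x0) (n0 : e0 ≠ x0) (i0 : inc x0 e1)
    (h1 : vt e1 = vt x1) (n1 : e1 ≠ x1) (i1 : inc x1 e2)
    (h2 : vt e2 = vt x2) (n2 : e2 ≠ x2) (i2 : inc x2 e0) : False := by
  refine hN (fun m => if m % 3 = 0 then e0 else if m % 3 = 1 then e1 else e2)
    (fun m => if m % 3 = 0 then x0 else if m % 3 = 1 then x1 else x2) ?_
  intro m _
  have : m % 3 = 0 ∨ m % 3 = 1 ∨ m % 3 = 2 := by omega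
  rcases this with h | h | h
  · have h' : (m + 1) % 3 = 1 := by omega
    simp [h, h', h0, n0, i0]
  · have h' : (m + 1) % 3 = 2 := by omega
    simp [h, h', h1, n1, i1]
  · have h' : (m + 1) % 3 = 0 := by omega
    simp [h, h', h2, n2, i2]

/-- A tie is extended along an arrow, keeping the source of the partner. -/
theorem extend (C : Comb vt arr tie) {p q r p' q' : Pt} {d : Pt × Pt}
    (h1 : tie (p, q) (p', q')) (h2 : tie (p, r) d) (hqr : arr q r) :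
    ∃ r', tie (q, r) (q', r') ∧ tie (p, r) (p', r') := by
  obtain ⟨p'', z', r', t1, t2, t3⟩ := C.fac p r q d h2 (C.tie_arr _ _ h1) hqr
  by_cases e : (p', q') = (p'', z')
  · obtain ⟨rfl, rfl⟩ := Prod.mk.inj e
    exact ⟨r', t2, t3⟩
  · exact (C.pl p q r _ _ d h1 t1 e hqr h2).elim

section
variable (C : Comb vt arr tie) (hpk : ∀ p q, arr p q → pk p = pk q)
  (hd : ∀ p q, vt p = vt q → pk p = pk q → p = q)
include C hpk hd

/-- The target of a partner is determined by its source. -/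
theorem target_eq {x : Pt × Pt} {p' q' r' : Pt} (h1 : tie x (p', q')) (h2 : tie x (p', r')) :
    q' = r' := by
  have a1 := hpk _ _ (C.tie_arr _ _ (C.symm _ _ h1))
  have a2 := hpk _ _ (C.tie_arr _ _ (C.symm _ _ h2))
  exact hd _ _ ((C.tie_vt _ _ h1).2.1.symm.trans (C.tie_vt _ _ h2).2.1) (a1.symm.trans a2)

end

section
variable {L : ℕ} {a : ι} {G : Type} [Group G] {val : Pt × Pt → Pt × Pt → G}
  (C : Comb vt arr tie) (hpk : ∀ p q, arr p q → pk p = pk q)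
  (hd : ∀ p q, vt p = vt q → pk p = pk q → p = q)
  (hN : NoPath vt (fun p q => pk p = pk q ∧ AInc arr p q) L)
  (v1 : ∀ x y, tie x y → vt x.1 = a → val y x = (val x y)⁻¹)
  (v2 : ∀ p q r p' q' r', vt p = a → tie (p, q) (p', q') → tie (q, r) (q', r') →
    tie (p, r) (p', r') → val (p, q) (p', q') = val (p, r) (p', r'))
  (v3 : ∀ x y z, vt x.1 = a → tie x y → tie y z → tie x z → val x y * val y z = val x z)

include C hpk hd v2 in
theorem pair_arr {p q r p' q' r' : Pt} (hp : vt p = a) (h1 : tie (p, q) (p', q'))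
    (h2 : tie (p, r) (p', r')) (hqr : arr q r) : val (p, q) (p', q') = val (p, r) (p', r') := by
  obtain ⟨r'', t1, t2⟩ := extend C h1 h2 hqr
  obtain rfl := target_eq C hpk hd h2 t2
  exact v2 _ _ _ _ _ _ hp h1 t1 h2

include C hpk hd v2 in
theorem pair_cmp {p q r p' q' r' : Pt} (hp : vt p = a) (h1 : tie (p, q) (p', q'))
    (h2 : tie (p, r) (p', r')) (h : ¬ AInc arr q r) :
    val (p, q) (p', q') = val (p, r) (p', r') := by
  by_cases e : q = r
  · subst e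
    rw [target_eq C hpk hd h1 h2]
  by_cases e1 : arr q r
  · exact pair_arr C hpk hd v2 hp h1 h2 e1
  by_cases e2 : arr r q
  · exact (pair_arr C hpk hd v2 hp h2 h1 e2).symm
  exact (h ⟨e, e1, e2⟩).elim

include C hpk in
theorem pk_targets {p q r : Pt} {x y : Pt × Pt} (h1 : tie (p, q) x) (h2 : tie (p, r) y) :
    pk q = pk r :=
  (hpk _ _ (C.tie_arr _ _ h1)).symm.trans (hpk _ _ (C.tie_arr _ _ h2))

include C hpk hd hN v1 v2 in
theorem pair {p q r p' q' r' : Pt} (hp : vt p = a) (h1 : tie (p, q) (p', q'))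
    (h2 : tie (p, r) (p', r')) : val (p, q) (p', q') = val (p, r) (p', r') := by
  by_cases i1 : AInc arr q r
  swap
  · exact pair_cmp C hpk hd v2 hp h1 h2 i1
  have hp' : vt p' = a := (C.tie_vt _ _ h1).1.symm.trans hp
  have s1 := C.symm _ _ h1
  have s2 := C.symm _ _ h2
  by_cases i2 : AInc arr r' q'
  swap
  · have := pair_cmp C hpk hd v2 hp' s2 s1 i2
    rw [v1 _ _ h1 hp, v1 _ _ h2 hp] at this
    exact (inv_injective this).symm
  exact (walk2 hN q' q r r' (C.tie_vt _ _ s1).2.1 (C.tie_vt _ _ s1).2.2.2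
    ⟨pk_targets C hpk h1 h2, i1⟩ (C.tie_vt _ _ h2).2.1 (C.tie_vt _ _ h2).2.2.2
    ⟨pk_targets C hpk s2 s1, i2⟩).elim

include C hpk hd hN v1 v2 v3 in
theorem tri_eq {p1 p2 p3 q1 q2 r3 s1 s3 : Pt} (hp : vt p1 = a) (h1 : tie (p1, q1) (p2, q2))
    (h2 : tie (p2, q2) (p3, r3)) (h3 : tie (p1, s1) (p3, s3)) :
    val (p1, q1) (p2, q2) * val (p2, q2) (p3, r3) = val (p1, s1) (p3, s3) := by
  have hne : (p1, q1) ≠ (p3, r3) := fun e => (C.tie_vt _ _ h3).2.2.1 (Prod.mk.inj e).1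
  have h4 := C.tie_trans _ _ _ h1 h2 hne
  rw [v3 _ _ _ hp h1 h2 h4]
  exact pair C hpk hd hN v1 v2 hp h4 h3

include C hpk hd hN v1 v2 v3 in
theorem tri_cmp {p1 p2 p3 q1 q2 r2 r3 s1 s3 : Pt} (hp : vt p1 = a) (h1 : tie (p1, q1) (p2, q2))
    (h2 : tie (p2, r2) (p3, r3)) (h3 : tie (p1, s1) (p3, s3)) (h : ¬ AInc arr q2 r2) :
    val (p1, q1) (p2, q2) * val (p2, r2) (p3, r3) = val (p1, s1) (p3, s3) := by
  have hp2 : vt p2 = a := (C.tie_vt _ _ h1).1.symm.trans hp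
  by_cases e : q2 = r2
  · subst e
    exact tri_eq C hpk hd hN v1 v2 v3 hp h1 h2 h3
  by_cases e1 : arr q2 r2
  · obtain ⟨r', -, t2⟩ := extend C (C.symm _ _ h1) h2 e1
    have t3 := C.symm _ _ t2
    rw [pair C hpk hd hN v1 v2 hp h1 t3]
    exact tri_eq C hpk hd hN v1 v2 v3 hp t3 h2 h3
  by_cases e2 : arr r2 q2
  · obtain ⟨r', -, t2⟩ := extend C h2 (C.symm _ _ h1) e2
    rw [pair C hpk hd hN v1 v2 hp2 h2 t2]
    exact tri_eq C hpk hd hN v1 v2 v3 hp h1 t2 h3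
  exact (h ⟨e, e1, e2⟩).elim

include C hpk hd hN v1 v2 v3 in
theorem tri {p1 p2 p3 q1 q2 r2 r3 s1 s3 : Pt} (hp : vt p1 = a) (h1 : tie (p1, q1) (p2, q2))
    (h2 : tie (p2, r2) (p3, r3)) (h3 : tie (p1, s1) (p3, s3)) :
    val (p1, q1) (p2, q2) * val (p2, r2) (p3, r3) = val (p1, s1) (p3, s3) := by
  have hp2 : vt p2 = a := (C.tie_vt _ _ h1).1.symm.trans hp
  have t1 := C.symm _ _ h1
  have t2 := C.symm _ _ h2
  have t3 := C.symm _ _ h3
  by_cases i2 : AInc arr q2 r2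
  swap
  · exact tri_cmp C hpk hd hN v1 v2 v3 hp h1 h2 h3 i2
  by_cases i3 : AInc arr r3 s3
  swap
  · have := tri_cmp C hpk hd hN v1 v2 v3 hp2 h2 t3 t1 i3
    rw [v1 _ _ h3 hp, v1 _ _ h1 hp] at this
    rw [← inv_inv (val (p1, q1) (p2, q2)), ← this]
    group
  by_cases i1 : AInc arr s1 q1
  swap
  · have hp3 : vt p3 = a := (C.tie_vt _ _ h3).1.symm.trans hp
    have := tri_cmp C hpk hd hN v1 v2 v3 hp3 t3 h1 t2 i1
    rw [v1 _ _ h3 hp, v1 _ _ h2 hp2] at this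
    rw [← inv_inv (val (p2, r2) (p3, r3)), ← this]
    group
  exact (walk3 hN q1 q2 r2 r3 s3 s1 (C.tie_vt _ _ h1).2.1 (C.tie_vt _ _ h1).2.2.2
    ⟨pk_targets C hpk t1 h2, i2⟩ (C.tie_vt _ _ h2).2.1 (C.tie_vt _ _ h2).2.2.2
    ⟨pk_targets C hpk t2 t3, i3⟩ (C.tie_vt _ _ t3).2.1 (C.tie_vt _ _ t3).2.2.2
    ⟨pk_targets C hpk h3 h1, i1⟩).elim

end

/-- A cocycle on a graph with at most three points is a coboundary. -/
theorem cob {G : Type} [Group G] (S : Pt → Prop) (R : Pt → Pt → Prop) (V : Pt → Pt → G)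
    (h3 : ∀ p q r s, S p → S q → S r → S s → p = q ∨ p = r ∨ p = s ∨ q = r ∨ q = s ∨ r = s)
    (hS : ∀ p q, S p → R p q → S q) (hne : ∀ p q, R p q → p ≠ q) (hs : ∀ p q, R p q → R q p)
    (hinv : ∀ p q, S p → R p q → V q p = (V p q)⁻¹)
    (htri : ∀ p q r, S p → R p q → R q r → R p r → V p q * V q r = V p r) :
    ∃ g : Pt → G, ∀ p q, S p → R p q → V p q = (g p)⁻¹ * g q := by
  classical
  by_cases h0 : ∃ p q, S p ∧ R p q
  swap
  · exact ⟨fun _ => 1, fun p q hp h => (h0 ⟨p, q, hp, h⟩).elim⟩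
  obtain ⟨p1, p2, s1, r12⟩ := h0
  have s2 := hS _ _ s1 r12
  let g : Pt → G := fun p => if p = p1 then 1 else if R p1 p then V p1 p else V p1 p2 * V p2 p
  have k1 : ∀ y, R p1 y → V p1 y = (g p1)⁻¹ * g y := by
    intro y h
    simp [g, h, (hne _ _ h).symm]
  have flip : ∀ x y, S x → R x y → V x y = (g x)⁻¹ * g y → V y x = (g y)⁻¹ * g x := by
    intro x y hx h e
    rw [hinv x y hx h, e]; group
  have k2 : ∀ y, R p2 y → V p2 y = (g p2)⁻¹ * g y := by
    intro y h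
    by_cases e : y = p1
    · subst e
      exact flip _ _ s1 r12 (k1 _ r12)
    have g2 : g p2 = V p1 p2 := by simp [g, r12, (hne _ _ r12).symm]
    by_cases e1 : R p1 y
    · have gy : g y = V p1 y := by simp [g, e, e1]
      rw [g2, gy, ← htri _ _ _ s1 r12 h e1]; group
    · have gy : g y = V p1 p2 * V p2 y := by simp [g, e, e1]
      rw [g2, gy]; group
  refine ⟨g, fun x y hx h => ?_⟩
  rcases h3 p1 p2 x y s1 s2 hx (hS _ _ hx h) with e | e | e | e | e | e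
  · exact (hne _ _ r12 e).elim
  · subst e; exact k1 _ h
  · subst e; exact flip _ _ s1 (hs _ _ h) (k1 _ (hs _ _ h))
  · subst e; exact k2 _ h
  · subst e; exact flip _ _ s2 (hs _ _ h) (k2 _ (hs _ _ h))
  · exact (hne _ _ h e).elim

end FreeA

open FreeA in
theorem coc : SCoc := by
  intro Pt ι Ω vt pk arr tie L C hpk hd hN a G _ val v1 v2 v3
  classical
  let V : Pt → Pt → G := fun p p' =>
    if h : Link tie p p' then val (p, h.choose) (p', h.choose_spec.choose) else 1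
  have hV : ∀ p q p' q', vt p = a → tie (p, q) (p', q') → V p p' = val (p, q) (p', q') := by
    intro p q p' q' hp h
    have hl : Link tie p p' := ⟨q, q', h⟩
    simp only [V, dif_pos hl]
    exact pair C hpk hd hN v1 v2 hp hl.choose_spec.choose_spec h
  obtain ⟨g, hg⟩ := cob (fun p => vt p = a) (Link tie) V (C.three a)
    (fun p p' hp ⟨_, _, h⟩ => (C.tie_vt _ _ h).1.symm.trans hp)
    (fun p p' ⟨_, _, h⟩ => (C.tie_vt _ _ h).2.2.1)
    (fun p p' ⟨q, q', h⟩ => ⟨q', q, C.symm _ _ h⟩)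
    (fun p p' hp ⟨q, q', h⟩ => by
      rw [hV _ _ _ _ hp h, hV _ _ _ _ ((C.tie_vt _ _ h).1.symm.trans hp) (C.symm _ _ h)]
      exact v1 _ _ h hp)
    (fun p1 p2 p3 hp ⟨q1, q2, h1⟩ ⟨r2, r3, h2⟩ ⟨s1, s3, h3⟩ => by
      rw [hV _ _ _ _ hp h1, hV _ _ _ _ ((C.tie_vt _ _ h1).1.symm.trans hp) h2, hV _ _ _ _ hp h3]
      exact tri C hpk hd hN v1 v2 v3 hp h1 h2 h3)
  refine ⟨g, fun x y h hx => ?_⟩
  rw [← hg x.1 y.1 hx ⟨x.2, y.2, h⟩]
  exact (hV x.1 x.2 y.1 y.2 hx h).symm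

end Pool.Agent.MP_bd94e8_al.H89
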