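import Pool.Agent.MP_bd94e8_al.H89.Spec

/-!
The free grading.
-/

set_option autoImplicit false
set_option linter.unusedSectionVars false

namespace Pool.Agent.MP_bd94e8_al.H89

namespace FreeA

section side
variable {α : Type} [DecidableEq α] (S : α → Prop)

open Classical in
/-- The first letter of the reduced word, if it is a positive letter in `S`. -/
noncomputable def side (w : FreeGroup α) : Option (α × Bool) :=
  ((w⁻¹).toWord.getLast?).filter fun l => decide (S l.1 ∧ l.2 = false)

theorem toWord_inv_mul (w : FreeGroup α) (p : α) :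
    ((w * FreeGroup.of p)⁻¹).toWord = FreeGroup.reduce ((p, false) :: (w⁻¹).toWord) := by
  have h1 : (FreeGroup.of p)⁻¹ = FreeGroup.mk [(p, false)] := by
    rw [FreeGroup.of, FreeGroup.inv_mk]; rfl
  rw [mul_inv_rev, h1]
  conv_lhs => rw [← FreeGroup.mk_toWord (x := w⁻¹), FreeGroup.mul_mk, FreeGroup.toWord_mk]
  rfl

theorem side_of (p : α) (hp : S p) : side S (FreeGroup.of p) = some (p, false) := by
  have h := toWord_inv_mul (1 : FreeGroup α) p
  rw [one_mul, inv_one, FreeGroup.toWord_one, FreeGroup.reduce_singleton] at h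
  simp [side, h, hp]

theorem side_mul (w : FreeGroup α) (p : α) (h : w ≠ 1 ∨ ¬ S p) :
    side S (w * FreeGroup.of p) = side S w := by
  unfold side
  rw [toWord_inv_mul, FreeGroup.reduce.cons, FreeGroup.reduce_toWord]
  rcases hw : (w⁻¹).toWord with _ | ⟨hd, tl⟩
  · have h1 : w = 1 := inv_eq_one.1 (FreeGroup.toWord_eq_nil_iff.1 hw)
    have h2 : ¬ S p := h.resolve_left fun e => e h1
    simp [h2]
  · dsimp only
    split_ifs with e
    · rcases tl with _ | ⟨x, tl⟩
      · have : hd.2 = true := by simpa using e.2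
        simp [Option.filter, this]
      · rw [List.getLast?_cons_cons]
    · rw [List.getLast?_cons_cons]

end side

section rep
variable {Pt : Type} (R : Pt → Pt → Prop)

/-- A chosen point in each class. -/
noncomputable def rep (p : Pt) : Pt := Quot.out (Quot.mk R p)

theorem rep_eq_iff (p q : Pt) : rep R p = rep R q ↔ Relation.EqvGen R p q := by
  rw [← Quot.eq]
  constructor
  · intro h
    rw [← Quot.out_eq (Quot.mk R p), ← Quot.out_eq (Quot.mk R q)]
    exact congrArg _ h
  · intro h; unfold rep; rw [h]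

theorem rep_rel (p : Pt) : Relation.EqvGen R p (rep R p) := by
  rw [← Quot.eq]; exact (Quot.out_eq _).symm

theorem rep_rep (p : Pt) : rep R (rep R p) = rep R p :=
  ((rep_eq_iff R _ _).2 (rep_rel R p)).symm

theorem eqv_const {β : Type} (f : Pt → β) (S : Pt → Prop) (hS : ∀ p q, R p q → (S p ↔ S q))
    (hf : ∀ p q, S p → R p q → f p = f q) {p q : Pt} (h : Relation.EqvGen R p q) :
    (S p ↔ S q) ∧ (S p → f p = f q) := by
  induction h with
  | rel x y h => exact ⟨hS x y h, fun hx => hf x y hx h⟩
  | refl x => exact ⟨Iff.rfl, fun _ => rfl⟩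
  | symm x y _ ih => exact ⟨ih.1.symm, fun hy => (ih.2 (ih.1.2 hy)).symm⟩
  | trans x y z _ _ ih1 ih2 =>
    exact ⟨ih1.1.trans ih2.1, fun hx => (ih1.2 hx).trans (ih2.2 (ih1.1.1 hx))⟩

end rep

variable {Pt ι Ω : Type} {vt : Pt → ι} {pk : Pt → Ω} {arr : Pt → Pt → Prop}
  {tie : Pt × Pt → Pt × Pt → Prop}

theorem link_vt (C : Comb vt arr tie) (b : ι) (p q : Pt) (h : Link tie p q) :
    vt p = b ↔ vt q = b := by
  obtain ⟨_, _, h⟩ := h
  have : vt p = vt q := (C.tie_vt _ _ h).1
  rw [this]

theorem rep_vt (C : Comb vt arr tie) (p : Pt) : vt (rep (Link tie) p) = vt p :=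
  (eqv_const (Link tie) (fun _ => ()) (fun q => vt q = vt p) (link_vt C _) (fun _ _ _ _ => rfl)
    (rep_rel _ p)).1.1 rfl

theorem exists_deg (hc : SCoc) {L : ℕ} {rk : ι → ℕ} (C : Comb vt arr tie)
    (hpk : ∀ p q, arr p q → pk p = pk q) (hd : ∀ p q, vt p = vt q → pk p = pk q → p = q)
    (hN : NoPath vt (fun p q => pk p = pk q ∧ AInc arr p q) L)
    (hrk : ∀ p q, arr p q → rk (vt q) < rk (vt p)) (n : ℕ) :
    ∃ deg : Pt → FreeGroup Pt,
      (∀ x y, tie x y → rk (vt x.1) < n → (deg x.1)⁻¹ * deg y.1 = (deg x.2)⁻¹ * deg y.2) ∧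
      ∀ p, rk (vt p) < n → deg (rep (Link tie) p) = FreeGroup.of (rep (Link tie) p) := by
  induction n with
  | zero => exact ⟨fun _ => 1, fun _ _ _ h => absurd h (by omega), fun _ h => absurd h (by omega)⟩
  | succ n ih =>
    obtain ⟨deg, h1, h2⟩ := ih
    have hg : ∀ a : ι, ∃ g : Pt → FreeGroup Pt, rk a = n → ∀ x y, tie x y → vt x.1 = a →
        (deg x.2)⁻¹ * deg y.2 = (g x.1)⁻¹ * g y.1 := by
      intro a
      by_cases ha : rk a = n
      swap
      · exact ⟨fun _ => 1, fun h => (ha h).elim⟩
      obtain ⟨g, hg⟩ := hc Pt ι Ω vt pk arr tie L C hpk hd hN a (FreeGroup Pt)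
        (fun x y => (deg x.2)⁻¹ * deg y.2) (fun x y _ _ => by group)
        (fun p q r p' q' r' hp t1 t2 _ => by
          have := hrk _ _ (C.tie_arr _ _ t1)
          dsimp only at this
          exact h1 _ _ t2 (by dsimp only; rw [hp, ha] at this; exact this))
        (fun x y z _ _ _ _ => by group)
      exact ⟨g, fun _ => hg⟩
    choose g hg using hg
    refine ⟨fun p => if rk (vt p) = n then FreeGroup.of (rep (Link tie) p) *
      (g (vt p) (rep (Link tie) p))⁻¹ * g (vt p) p else deg p, ?_, ?_⟩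
    · intro x y t hx
      have e1 : vt y.1 = vt x.1 := (C.tie_vt _ _ t).1.symm
      have e2 : vt y.2 = vt x.2 := (C.tie_vt _ _ t).2.1.symm
      have e3 := hrk _ _ (C.tie_arr _ _ t)
      have n2 : ¬ rk (vt x.2) = n := by omega
      simp only [e1, e2, n2, if_false]
      by_cases e : rk (vt x.1) = n
      · have r : rep (Link tie) y.1 = rep (Link tie) x.1 :=
          ((rep_eq_iff _ _ _).2 (Relation.EqvGen.rel _ _ ⟨x.2, y.2, t⟩)).symm
        simp only [e, if_true, r]
        rw [hg _ e x y t rfl]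
        group
      · simp only [e, if_false]
        exact h1 x y t (by omega)
    · intro p hp
      by_cases e : rk (vt p) = n
      · simp only [rep_vt C, e, if_true, rep_rep]
        group
      · simp only [rep_vt C, e, if_false]
        exact h2 p (by omega)

section sides
variable [DecidableEq Pt] {rk : ι → ℕ} {deg : Pt → FreeGroup Pt} (C : Comb vt arr tie)
  (hrk : ∀ p q, arr p q → rk (vt q) < rk (vt p))
  (h1 : ∀ x y, tie x y → deg x.1 * (deg x.2)⁻¹ = deg y.1 * (deg y.2)⁻¹)
  (h2 : ∀ p, deg (rep (Link tie) p) = FreeGroup.of (rep (Link tie) p)) (a : ι)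
include C hrk h1 h2

/-- Comparison of a point with the chosen point of its class through the targets of the ties. -/
theorem side_rep (b : ι) (g : FreeGroup Pt)
    (ih : ∀ j g', LS vt arr deg (b, g) (j, g') → rk j < rk b → ∀ q q', vt q = j → vt q' = j →
      side (fun p => vt p = a) (g' * deg q) = side (fun p => vt p = a) (g' * deg q'))
    (p : Pt) (hp : vt p = b) : side (fun p => vt p = a) (g * deg p) =
      side (fun p => vt p = a) (g * FreeGroup.of (rep (Link tie) p)) := by
  rw [← h2]
  refine (eqv_const (Link tie) (fun p => side (fun p => vt p = a) (g * deg p)) (fun q => vt q = b)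
    (link_vt C _) ?_ (rep_rel _ p)).2 hp
  rintro p p' hp ⟨q, q', t⟩
  have ar : arr p q := C.tie_arr _ _ t
  have lt := hrk _ _ ar
  have e := h1 _ _ t
  dsimp only at e
  have e1 : g * deg p = g * deg p * (deg q)⁻¹ * deg q := by group
  have e2 : g * deg p' = g * deg p * (deg q)⁻¹ * deg q' := by
    rw [mul_assoc g, e]; group
  have := ih (vt q) (g * deg p * (deg q)⁻¹)
    ⟨p, q, hp, rfl, fun h => by rw [h] at lt; omega, ar, e1⟩ (hp ▸ lt) q q' rfl
    (C.tie_vt _ _ t).2.1.symm
  rw [← e1, ← e2] at this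
  exact this

theorem side_const (n : ℕ) : ∀ (b : ι) (g : FreeGroup Pt), rk b = n →
    ¬ Relation.ReflTransGen (LS vt arr deg) (b, g) (a, 1) → ∀ p q, vt p = b → vt q = b →
      side (fun p => vt p = a) (g * deg p) = side (fun p => vt p = a) (g * deg q) := by
  induction n using Nat.strong_induction_on with
  | _ n ih =>
    intro b g hb hr
    have key : ∀ p, vt p = b →
        side (fun p => vt p = a) (g * deg p) = side (fun p => vt p = a) g := by
      intro p hp
      rw [side_rep C hrk h1 h2 a b g (fun j g' hl hj =>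
        ih (rk j) (hb ▸ hj) j g' rfl fun h => hr (h.head hl)) p hp]
      refine side_mul _ _ _ ?_
      by_contra h
      rw [not_or, not_not, not_not, rep_vt C, hp] at h
      obtain ⟨rfl, rfl⟩ := h
      exact hr Relation.ReflTransGen.refl
    intro p q hp hq
    rw [key p hp, key q hq]

omit C h1 h2 in
theorem reach_rk {x y : ι × FreeGroup Pt} (h : Relation.ReflTransGen (LS vt arr deg) x y) :
    rk y.1 ≤ rk x.1 := by
  induction h with
  | refl => exact le_rfl
  | tail _ h ih =>
    obtain ⟨p, q, hp, hq, -, ar, -⟩ := h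
    have := hrk _ _ ar
    rw [hp, hq] at this
    omega

theorem side_deg (p : Pt) (hp : vt p = a) :
    side (fun p => vt p = a) (deg p) = some (rep (Link tie) p, false) := by
  have := side_rep C hrk h1 h2 a a 1 (fun j g' _ hj =>
    side_const C hrk h1 h2 a _ j g' rfl fun h => by
      have := reach_rk hrk h
      dsimp only at this
      omega) p hp
  rw [one_mul, one_mul] at this
  rw [this]
  exact side_of _ _ ((rep_vt C p).trans hp)

end sides

end FreeA

open FreeA in
theorem free : SCoc → SFree := by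
  intro hc Pt ι Ω _ _ vt pk arr tie L rk C hpk hd hN hrk
  obtain ⟨deg, h1, h2⟩ := exists_deg hc C hpk hd hN hrk
    ((Finset.univ.sup fun p => rk (vt p)) + 1)
  have hb : ∀ p, rk (vt p) < (Finset.univ.sup fun p => rk (vt p)) + 1 := fun p =>
    Nat.lt_succ_of_le (Finset.le_sup (f := fun p => rk (vt p)) (Finset.mem_univ p))
  have h1' : ∀ x y, tie x y → deg x.1 * (deg x.2)⁻¹ = deg y.1 * (deg y.2)⁻¹ := by
    intro x y t
    have := h1 x y t (hb _)
    calc deg x.1 * (deg x.2)⁻¹ = deg x.1 * ((deg x.2)⁻¹ * deg y.2) * (deg y.2)⁻¹ := by group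
      _ = deg y.1 * (deg y.2)⁻¹ := by rw [← this]; group
  have h2' := fun p => h2 p (hb p)
  refine ⟨deg, h1', fun a => ⟨Option (Pt × Bool), side (fun p => vt p = a), ?_, ?_⟩⟩
  · intro b g hr
    exact side_const C hrk h1' h2' a _ b g rfl hr
  · intro _ p q hp hq h
    rw [side_deg C hrk h1' h2' a p hp, side_deg C hrk h1' h2' a q hq] at h
    exact (rep_eq_iff _ _ _).1 (Prod.mk.inj (Option.some.inj h)).1

end Pool.Agent.MP_bd94e8_al.H89
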